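import Mathlib
import Pool.Agent.H52CD.Strip

set_option autoImplicit false

open Set

namespace Pool.Agent.Results.MP_49015a_co.ConcurrentDiagonals

/-- Twice the signed area of the triangle `p q r`; positive iff `p, q, r` turn counterclockwise. -/
def orient (p q r : ℝ × ℝ) : ℝ := (q.1 - p.1) * (r.2 - p.2) - (q.2 - p.2) * (r.1 - p.1)

/-- `P 0, …, P (n-1)` are `n` points in strictly convex position, numbered in counterclockwise
order. The drawing of `K_n` has these vertices and all segments `P i P j` as edges; any number of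
edges may pass through one point. -/
def IsConvexPolygon {n : ℕ} (P : Fin n → ℝ × ℝ) : Prop :=
  ∀ i j k : Fin n, i < j → j < k → 0 < orient (P i) (P j) (P k)

/-- The union of all edges of the drawing. -/
def edges {n : ℕ} (P : Fin n → ℝ × ℝ) : Set (ℝ × ℝ) := ⋃ i, ⋃ j, segment ℝ (P i) (P j)

/-- `F` is a bounded face: a bounded connected component of the complement of the edges. -/
def IsBoundedFace {n : ℕ} (P : Fin n → ℝ × ℝ) (F : Set (ℝ × ℝ)) : Prop :=
  Bornology.IsBounded F ∧ ∃ x ∈ (edges P)ᶜ, F = connectedComponentIn (edges P)ᶜ x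

/-- The bounded faces of size at least `5` (the size is the number of corners of the polygon,
that is, of extreme points of its closure). -/
def bigFaces {n : ℕ} (P : Fin n → ℝ × ℝ) : Set (Set (ℝ × ℝ)) :=
  {F | IsBoundedFace P F ∧ 5 ≤ ((closure F).extremePoints ℝ).encard}

/-- The edges (as pairs `i < j`) which contain `x` in their relative interior. -/
def through {n : ℕ} (P : Fin n → ℝ × ℝ) (x : ℝ × ℝ) : Set (Fin n × Fin n) :=
  {e | e.1 < e.2 ∧ x ∈ openSegment ℝ (P e.1) (P e.2)}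

/-- The multiple points: points in the relative interior of at least three edges. -/
def multiplePoints {n : ℕ} (P : Fin n → ℝ × ℝ) : Set (ℝ × ℝ) := {x | 3 ≤ (through P x).encard}

/-- The closed inner pentagon cut out by the five diagonals of a convex pentagon `a b c d e`
(numbered counterclockwise). -/
def innerPentagon (a b c d e : ℝ × ℝ) : Set (ℝ × ℝ) :=
  {x | 0 ≤ orient a c x ∧ 0 ≤ orient b d x ∧ 0 ≤ orient c e x ∧ 0 ≤ orient d a x ∧
    0 ≤ orient e b x}

/-- Convex drawings of `K_n`, concurrent diagonals allowed. -/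
theorem result (n : ℕ) (hn : 5 ≤ n) (P : Fin n → ℝ × ℝ) (h : IsConvexPolygon P) :
    -- (1) the inner pentagon of any five vertices contains a multiple point or a big face
    (∀ i₁ i₂ i₃ i₄ i₅ : Fin n, i₁ < i₂ → i₂ < i₃ → i₃ < i₄ → i₄ < i₅ →
      (innerPentagon (P i₁) (P i₂) (P i₃) (P i₄) (P i₅) ∩ multiplePoints P).Nonempty ∨
      ∃ F ∈ bigFaces P, F ⊆ innerPentagon (P i₁) (P i₂) (P i₃) (P i₄) (P i₅)) ∧
    -- (2) the number of multiple points plus the number of big faces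
    ((n : ℕ∞) ≤ (multiplePoints P).encard + (bigFaces P).encard + 2 +
      2 * (Nat.log 2 (n - 1) : ℕ)) ∧
    -- (3) without big faces: for consecutive vertices `Q 0, Q 1, Q 2, Q 3` and any other `Q j`
    (bigFaces P = ∅ → ∀ s j : Fin n, 4 ≤ j.val → ∃ a b : Fin n, 4 ≤ a.val ∧ a ≤ j ∧ j ≤ b ∧
      (openSegment ℝ (P (⟨0, by omega⟩ + s)) (P (⟨3, by omega⟩ + s)) ∩
        openSegment ℝ (P (⟨1, by omega⟩ + s)) (P (a + s)) ∩
        openSegment ℝ (P (⟨2, by omega⟩ + s)) (P (b + s))).Nonempty) ∧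
    -- (4) heptagons
    (n = 7 → (bigFaces P).Nonempty) ∧
    -- (5) odd `n`, with an affine symmetry which reverses the polygon
    (Odd n → ∀ (σ : (ℝ × ℝ) →ᵃ[ℝ] (ℝ × ℝ)) (c : Fin n), (∀ k, σ (P k) = P (c - k)) →
      (bigFaces P).Nonempty) := by
  refine ⟨?_, ?_, ?_, ?_, ?_⟩
  · intro i₁ i₂ i₃ i₄ i₅ h1 h2 h3 h4
    rcases Pool.Agent.H52CD.pentagram (P := P) h h1 h2 h3 h4 with ⟨x, hx, hx'⟩ | ⟨F, hF, _, h5, h6⟩
    · obtain ⟨g1, g2, g3, g4, g5, _⟩ := hx
      exact Or.inl ⟨x, ⟨g1, g2, g3, g4, g5⟩, hx'⟩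
    · refine Or.inr ⟨F, ⟨h5, h6⟩, ?_⟩
      intro x hx
      obtain ⟨g1, g2, g3, g4, g5, _⟩ := hF hx
      exact ⟨g1, g2, g3, g4, g5⟩
  · exact Pool.Agent.H52CD.count (P := P) h
  · intro hb s j hj
    obtain ⟨a, b, h1, h2, h3, y, y1, y2, y3⟩ := Pool.Agent.H52CD.strip (P := P) h hb s
      (i0 := ⟨0, by omega⟩) (i1 := ⟨1, by omega⟩) (i2 := ⟨2, by omega⟩) (i3 := ⟨3, by omega⟩)
      (j := j) rfl rfl rfl rfl hj
    exact ⟨a, b, h1, h2, h3, y, ⟨y1, y2⟩, y3⟩
  · intro h7
    subst h7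
    exact Pool.Agent.H52CD.seven (P := P) h
  · intro hodd σ c hσ
    exact Pool.Agent.H52CD.odd_sym (P := P) h hn hodd σ c hσ

end Pool.Agent.Results.MP_49015a_co.ConcurrentDiagonals
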